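import Pool.Agent.HIK.Stmts

/-!
Squad HIK, row TAY (helper15): the Taylor coefficients of a simple root modulo `p`, over any
commutative ring.
-/

set_option autoImplicit false

open Polynomial

namespace Pool.Agent.HIK.H15

private theorem evalEval_congr {R : Type} [CommRing R] (p : R) (g : R[X][X]) {a a' y y' : R}
    (ha : p ∣ a - a') (hy : p ∣ y - y') : p ∣ evalEval a y g - evalEval a' y' g := by
  let q := Ideal.Quotient.mk (Ideal.span {p})
  have hq : ∀ u w : R, p ∣ u - w ↔ q u = q w := by
    intro u w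
    rw [Ideal.Quotient.eq, Ideal.mem_span_singleton]
  rw [hq] at ha hy ⊢
  have h1 := map_mapRingHom_evalEval q a y (p := g)
  have h2 := map_mapRingHom_evalEval q a' y' (p := g)
  rw [← h1, ← h2, ha, hy]

private theorem evalEval_eq_eval {R : Type} [CommRing R] (g : R[X][X]) (a y : R) :
    evalEval a y g = (g.map (evalRingHom a)).eval y := (map_evalRingHom_eval a y g).symm

private theorem exists_taylor {R : Type} [CommRing R] (g : R[X][X]) (p t0 y0 v : R)
    (h0 : p ∣ evalEval t0 y0 g) (hv : p ∣ 1 - v * evalEval t0 y0 (derivative g))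
    (N : ℕ) (hN : 1 ≤ N) :
    ∃ Ψ : R[X], ∀ x : R, p ∣ x →
      (p ∣ Ψ.eval x - y0) ∧ (p ^ N ∣ evalEval (t0 + x) (Ψ.eval x) g) := by
  induction N, hN using Nat.le_induction with
  | base =>
    refine ⟨C y0, fun x hx => ⟨by simp, ?_⟩⟩
    rw [pow_one, eval_C]
    have h := evalEval_congr p g (a := t0 + x) (a' := t0) (y := y0) (y' := y0)
      (by simpa using hx) (by simp)
    have h' := dvd_add h h0
    rwa [sub_add_cancel] at h'
  | succ N hN ih =>
    obtain ⟨Ψ, hΨ⟩ := ih
    let E : R[X] := (g.map (compRingHom (C t0 + X))).eval Ψ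
    have hE : ∀ x : R, E.eval x = evalEval (t0 + x) (Ψ.eval x) g := by
      intro x
      simp only [E]
      rw [evalEval_eq_eval, ← coe_evalRingHom, ← eval₂_hom, ← Polynomial.eval_map,
        Polynomial.map_map]
      congr 1
      congr 1
      ext <;> simp
    refine ⟨Ψ - C v * E, fun x hx => ?_⟩
    obtain ⟨h2, h3⟩ := hΨ x hx
    set z := Ψ.eval x with hz
    set e := evalEval (t0 + x) z g with he
    have hev : (Ψ - C v * E).eval x = z - v * e := by
      simp [hE, ← hz, ← he]
    rw [hev]
    have hpe : p ∣ e := dvd_trans (dvd_pow_self _ (by omega)) h3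
    refine ⟨?_, ?_⟩
    · have : z - v * e - y0 = (z - y0) - v * e := by ring
      rw [this]
      exact dvd_sub h2 (Dvd.dvd.mul_left hpe v)
    · obtain ⟨k, hk⟩ := (g.map (evalRingHom (t0 + x))).binomExpansion z (-(v * e))
      have h4 : evalEval (t0 + x) (z - v * e) g = e * (1 - v * evalEval (t0 + x) z (derivative g))
          + k * v ^ 2 * (e * e) := by
        rw [evalEval_eq_eval, sub_eq_add_neg, hk, he, evalEval_eq_eval, evalEval_eq_eval,
          ← derivative_map]
        ring
      rw [h4]
      have h5 : p ∣ 1 - v * evalEval (t0 + x) z (derivative g) := by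
        have h6 := evalEval_congr p (derivative g) (a := t0) (a' := t0 + x) (y := y0) (y' := z)
          (by simpa using hx) (by rw [← dvd_neg]; simpa using h2)
        have : 1 - v * evalEval (t0 + x) z (derivative g) =
            (1 - v * evalEval t0 y0 (derivative g)) +
              v * (evalEval t0 y0 (derivative g) - evalEval (t0 + x) z (derivative g)) := by ring
        rw [this]
        exact dvd_add hv (Dvd.dvd.mul_left h6 v)
      refine dvd_add ?_ ?_
      · rw [pow_succ]; exact mul_dvd_mul h3 h5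
      · rw [pow_succ]
        exact Dvd.dvd.mul_left (mul_dvd_mul h3 hpe) _

/-- if `u` is invertible modulo `p` then `u` can be cancelled modulo `p ^ N` -/
private theorem cancel {R : Type} [CommRing R] (p u v w : R) (hu : p ∣ 1 - v * u) (N : ℕ)
    (h : p ^ N ∣ w * u) : p ^ N ∣ w := by
  have h1 : p ^ N ∣ (1 - v * u) ^ N := pow_dvd_pow_of_dvd hu N
  have h2 : u ∣ 1 - (1 - v * u) ^ N := by
    have h3 : (1 : R) - (1 - v * u) ∣ 1 ^ N - (1 - v * u) ^ N := sub_dvd_pow_sub_pow _ _ N
    rw [one_pow, sub_sub_cancel] at h3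
    exact (Dvd.intro_left v rfl).trans h3
  obtain ⟨s, hs⟩ := h2
  have h3 : w = w * (1 - v * u) ^ N + w * u * s := by
    rw [mul_assoc, ← hs]; ring
  rw [h3]
  exact dvd_add (Dvd.dvd.mul_left h1 w) (Dvd.dvd.mul_right h s)

/-- TAY. -/
theorem tay : TayStmt := by
  intro R _ g p t0 y0 v h0 h1 N hN
  obtain ⟨Ψ, hΨ⟩ := exists_taylor g p t0 y0 v h0 h1 N hN
  refine ⟨Ψ.coeff, fun b y hy hroot => ?_⟩
  obtain ⟨h2, h3⟩ := hΨ (p * b) (dvd_mul_right _ _)
  set z := Ψ.eval (p * b : R) with hz
  -- uniqueness
  have h4 : p ^ N ∣ y - z := by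
    obtain ⟨k, hk⟩ := (g.map (evalRingHom (t0 + p * b))).binomExpansion z (y - z)
    rw [add_sub_cancel, ← evalEval_eq_eval, hroot, ← evalEval_eq_eval, derivative_map,
      ← evalEval_eq_eval] at hk
    have h5 : (y - z) * (evalEval (t0 + p * b) z (derivative g) + k * (y - z)) =
        - evalEval (t0 + p * b) z g := by linear_combination -hk
    have h6 : p ^ N ∣ (y - z) *
        (evalEval (t0 + p * b) z (derivative g) + k * (y - z)) := by
      rw [h5]; exact (dvd_neg).2 h3
    have hyz : p ∣ y - z := by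
      have : y - z = (y - y0) - (z - y0) := by ring
      rw [this]; exact dvd_sub hy h2
    have h7 : p ∣ 1 - v * (evalEval (t0 + p * b) z (derivative g) + k * (y - z)) := by
      have h8 := evalEval_congr p (derivative g) (a := t0) (a' := t0 + p * b) (y := y0) (y' := z)
          (by simp) (by rw [← dvd_neg]; simpa using h2)
      have : 1 - v * (evalEval (t0 + p * b) z (derivative g) + k * (y - z)) =
          (1 - v * evalEval t0 y0 (derivative g)) +
            v * (evalEval t0 y0 (derivative g) - evalEval (t0 + p * b) z (derivative g)) -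
            v * k * (y - z) := by ring
      rw [this]
      exact dvd_sub (dvd_add h1 (Dvd.dvd.mul_left h8 v)) (Dvd.dvd.mul_left hyz _)
    exact cancel p _ v _ h7 N h6
  -- truncation
  have h9 : p ^ N ∣ z - ∑ k ∈ Finset.range N, Ψ.coeff k * (p * b) ^ k := by
    rw [hz, eval_eq_sum_range' (n := max N (Ψ.natDegree + 1)) (by omega)]
    rw [← Finset.sum_range_add_sum_Ico _ (le_max_left N (Ψ.natDegree + 1)), add_sub_cancel_left]
    refine Finset.dvd_sum fun k hk => ?_
    rw [Finset.mem_Ico] at hk
    rw [mul_pow]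
    exact Dvd.dvd.mul_left (Dvd.dvd.mul_right (pow_dvd_pow _ hk.1) _) _
  have : y - ∑ k ∈ Finset.range N, Ψ.coeff k * (p * b) ^ k =
      (y - z) + (z - ∑ k ∈ Finset.range N, Ψ.coeff k * (p * b) ^ k) := by ring
  rw [this]
  exact dvd_add h4 h9

end Pool.Agent.HIK.H15
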